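import Pool.Agent.Lib.MP_e7fbd4_ag.X.Dat

/-!
# The example algebra
-/

set_option autoImplicit false

namespace Pool.Agent.Lib.MP_e7fbd4_ag.X

/-- The nine generators. -/
inductive Let | x | xi | x' | xi' | D | Di | D' | Di' | E
  deriving DecidableEq

instance : Fintype Let := ⟨{.x, .xi, .x', .xi', .D, .Di, .D', .Di', .E}, by
  intro i; cases i <;> simp⟩

/-- a generator as an element of the free algebra -/
noncomputable def lt (i : Let) : FreeAlgebra ℂ Let := FreeAlgebra.ι ℂ i

/-- The seventeen relators. -/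
noncomputable def relX : Fin 17 → FreeAlgebra ℂ Let :=
  ![lt .x * lt .xi - 1, lt .xi * lt .x - 1, lt .x' * lt .xi' - 1, lt .xi' * lt .x' - 1,
    lt .D * lt .Di - 1, lt .Di * lt .D - 1, lt .D' * lt .Di' - 1, lt .Di' * lt .D' - 1,
    lt .x * lt .x' - lt .x' * lt .x, lt .x * lt .D' - lt .D' * lt .x,
    lt .x' * lt .D - lt .D * lt .x', lt .D * lt .D' - lt .D' * lt .D,
    lt .E * lt .E - lt .E, lt .E * (lt .x * lt .x') - (lt .x * lt .x') * lt .E,
    lt .E * lt .D - lt .D * lt .E, lt .E * lt .D' - lt .D' * lt .E,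
    lt .D * lt .E - lt .D' * lt .E]

/-- the relations -/
inductive RelX : FreeAlgebra ℂ Let → FreeAlgebra ℂ Let → Prop
  | rel (k : Fin 17) : RelX (relX k) 0

/-- The algebra with the generators `x, x⁻¹, x', x'⁻¹, D, D⁻¹, D', D'⁻¹, E` and the relations
`x x' = x' x`, `x D' = D' x`, `x' D = D x'`, `D D' = D' D`, `E² = E`, `E (x x') = (x x') E`,
`E D = D E`, `E D' = D' E`, `D E = D' E`. -/
abbrev AX : Type := RingQuot RelX

/-- a generator -/
noncomputable def gX (i : Let) : AX := RingQuot.mkAlgHom ℂ RelX (lt i)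

theorem relX_zero (k : Fin 17) : RingQuot.mkAlgHom ℂ RelX (relX k) = 0 := by
  rw [RingQuot.mkAlgHom_rel ℂ (RelX.rel k), map_zero]

/-- The generators of the example algebra satisfy the relations. -/
noncomputable def datX : Dat AX where
  x := ⟨gX .x, gX .xi, by
      have h := relX_zero 0
      simpa [gX, relX, map_sub, map_mul, sub_eq_zero] using h, by
      have h := relX_zero 1
      simpa [gX, relX, map_sub, map_mul, sub_eq_zero] using h⟩
  x' := ⟨gX .x', gX .xi', by
      have h := relX_zero 2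
      simpa [gX, relX, map_sub, map_mul, sub_eq_zero] using h, by
      have h := relX_zero 3
      simpa [gX, relX, map_sub, map_mul, sub_eq_zero] using h⟩
  D := ⟨gX .D, gX .Di, by
      have h := relX_zero 4
      simpa [gX, relX, map_sub, map_mul, sub_eq_zero] using h, by
      have h := relX_zero 5
      simpa [gX, relX, map_sub, map_mul, sub_eq_zero] using h⟩
  D' := ⟨gX .D', gX .Di', by
      have h := relX_zero 6
      simpa [gX, relX, map_sub, map_mul, sub_eq_zero] using h, by
      have h := relX_zero 7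
      simpa [gX, relX, map_sub, map_mul, sub_eq_zero] using h⟩
  E := gX .E
  xx' := by
    have h := relX_zero 8
    refine Units.ext ?_
    simpa [gX, relX, map_sub, map_mul, sub_eq_zero] using h
  xD' := by
    have h := relX_zero 9
    refine Units.ext ?_
    simpa [gX, relX, map_sub, map_mul, sub_eq_zero] using h
  x'D := by
    have h := relX_zero 10
    refine Units.ext ?_
    simpa [gX, relX, map_sub, map_mul, sub_eq_zero] using h
  DD' := by
    have h := relX_zero 11
    refine Units.ext ?_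
    simpa [gX, relX, map_sub, map_mul, sub_eq_zero] using h
  EE := by
    have h := relX_zero 12
    simpa [gX, relX, map_sub, map_mul, sub_eq_zero] using h
  Exx' := by
    have h := relX_zero 13
    simpa [gX, relX, map_sub, map_mul, sub_eq_zero, Commute, SemiconjBy] using h
  ED := by
    have h := relX_zero 14
    simpa [gX, relX, map_sub, map_mul, sub_eq_zero, Commute, SemiconjBy] using h
  ED' := by
    have h := relX_zero 15
    simpa [gX, relX, map_sub, map_mul, sub_eq_zero, Commute, SemiconjBy] using h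
  DE := by
    have h := relX_zero 16
    simpa [gX, relX, map_sub, map_mul, sub_eq_zero] using h

/-- the values of the generators -/
def Dat.val {S : Type} [Ring S] (d : Dat S) : Let → S
  | .x => (d.x : S)
  | .xi => ((d.x⁻¹ : Sˣ) : S)
  | .x' => (d.x' : S)
  | .xi' => ((d.x'⁻¹ : Sˣ) : S)
  | .D => (d.D : S)
  | .Di => ((d.D⁻¹ : Sˣ) : S)
  | .D' => (d.D' : S)
  | .Di' => ((d.D'⁻¹ : Sˣ) : S)
  | .E => d.E

theorem Dat.lift_relX {S : Type} [Ring S] [Algebra ℂ S] (d : Dat S) (k : Fin 17) :
    FreeAlgebra.lift ℂ d.val (relX k) = 0 := by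
  have e : ∀ i, FreeAlgebra.lift ℂ d.val (lt i) = d.val i := fun i =>
    FreeAlgebra.lift_ι_apply _ _
  have h1 := Units.ext_iff.mp d.xx'.eq
  have h2 := Units.ext_iff.mp d.xD'.eq
  have h3 := Units.ext_iff.mp d.x'D.eq
  have h4 := Units.ext_iff.mp d.DD'.eq
  have h5 := d.EE
  have h6 := d.Exx'.eq
  have h7 := d.ED.eq
  have h8 := d.ED'.eq
  have h9 := d.DE
  simp only [Units.val_mul] at h1 h2 h3 h4 h6
  rw [h1] at h6
  fin_cases k <;>
    simp [relX, map_sub, map_mul, e, Dat.val, sub_eq_zero, h1, h2, h3, h4, h5, h6, h7, h8, h9]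

/-- The homomorphism given by elements satisfying the relations. -/
noncomputable def Dat.hom {S : Type} [Ring S] [Algebra ℂ S] (d : Dat S) : AX →ₐ[ℂ] S :=
  RingQuot.liftAlgHom ℂ ⟨FreeAlgebra.lift ℂ d.val, by
    rintro _ _ ⟨k⟩
    rw [d.lift_relX k, map_zero]⟩

theorem Dat.hom_gX {S : Type} [Ring S] [Algebra ℂ S] (d : Dat S) (i : Let) :
    d.hom (gX i) = d.val i := by
  unfold Dat.hom gX
  rw [RingQuot.liftAlgHom_mkAlgHom_apply]
  exact FreeAlgebra.lift_ι_apply _ _

theorem Dat.hom_tau {S : Type} [Ring S] [Algebra ℂ S] (d : Dat S) (k : ℕ) :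
    Units.map (d.hom : AX →* S) (datX.tau k) = d.tau k := by
  have hx : Units.map (d.hom : AX →* S) datX.x = d.x := Units.ext (d.hom_gX .x)
  have hD : Units.map (d.hom : AX →* S) datX.D = d.D := Units.ext (d.hom_gX .D)
  have hE : d.hom datX.E = d.E := d.hom_gX .E
  have hdd : Units.map (d.hom : AX →* S) (datX.dd k) = d.dd k := by
    unfold Dat.dd
    rw [map_mul, map_mul, map_inv, map_pow, hx, hD]
  refine Units.ext ?_
  change d.hom (1 - datX.E + (datX.dd k : AX) * datX.E) = 1 - d.E + (d.dd k : S) * d.E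
  rw [map_add, map_sub, map_one, map_mul, hE]
  have h := congrArg (fun u : Sˣ => (u : S)) hdd
  change d.hom (datX.dd k : AX) = (d.dd k : S) at h
  rw [h]

end Pool.Agent.Lib.MP_e7fbd4_ag.X
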