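import Mathlib

/-!
# The relations of the example algebra, and the commuting units

Elements `x, x', D, D'` (invertible) and `E` of a ring with
`x x' = x' x`, `x D' = D' x`, `x' D = D x'`, `D D' = D' D`, `E² = E`, `E` commutes with `x x'`, with
`D` and with `D'`, and `D E = D' E`.  Then the units `τ_k = 1 - E + x⁻ᵏ D xᵏ E` commute.
-/

set_option autoImplicit false

namespace Pool.Agent.Lib.MP_e7fbd4_ag.X

/-- Elements of a ring satisfying the relations of the example algebra. -/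
structure Dat (S : Type) [Ring S] where
  x : Sˣ
  x' : Sˣ
  D : Sˣ
  D' : Sˣ
  E : S
  xx' : Commute x x'
  xD' : Commute x D'
  x'D : Commute x' D
  DD' : Commute D D'
  EE : E * E = E
  Exx' : Commute E ((x * x' : Sˣ) : S)
  ED : Commute E (D : S)
  ED' : Commute E (D' : S)
  DE : (D : S) * E = (D' : S) * E

namespace Dat

variable {S : Type} [Ring S] (d : Dat S)

/-- `x⁻ᵏ D xᵏ` -/
def dd (k : ℕ) : Sˣ := (d.x ^ k)⁻¹ * d.D * d.x ^ k

/-- `x'⁻ᵏ D' x'ᵏ` -/
def dd' (k : ℕ) : Sˣ := (d.x' ^ k)⁻¹ * d.D' * d.x' ^ k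

theorem dd_eq (k : ℕ) : d.dd k = ((d.x * d.x') ^ k)⁻¹ * d.D * (d.x * d.x') ^ k := by
  have h1 : Commute ((d.x' ^ k)⁻¹) d.D := (d.x'D.pow_left k).inv_left
  unfold dd
  rw [d.xx'.mul_pow, mul_inv_rev]
  have h2 : (d.x' ^ k)⁻¹ * (d.x ^ k)⁻¹ * d.D * (d.x ^ k * d.x' ^ k) =
      (d.x' ^ k)⁻¹ * ((d.x ^ k)⁻¹ * d.D * d.x ^ k) * d.x' ^ k := by group
  rw [h2]
  have h3 : Commute ((d.x' ^ k)⁻¹) ((d.x ^ k)⁻¹ * d.D * d.x ^ k) := by
    refine Commute.mul_right (Commute.mul_right ?_ h1) ?_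
    · exact ((d.xx'.pow_pow k k).symm.inv_left).inv_right
    · exact (d.xx'.pow_pow k k).symm.inv_left
  rw [h3.eq]
  group

theorem dd'_eq (k : ℕ) : d.dd' k = ((d.x * d.x') ^ k)⁻¹ * d.D' * (d.x * d.x') ^ k := by
  have h1 : Commute ((d.x ^ k)⁻¹) d.D' := (d.xD'.pow_left k).inv_left
  unfold dd'
  rw [d.xx'.eq, d.xx'.symm.mul_pow, mul_inv_rev]
  have h2 : (d.x ^ k)⁻¹ * (d.x' ^ k)⁻¹ * d.D' * (d.x' ^ k * d.x ^ k) =
      (d.x ^ k)⁻¹ * ((d.x' ^ k)⁻¹ * d.D' * d.x' ^ k) * d.x ^ k := by group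
  rw [h2]
  have h3 : Commute ((d.x ^ k)⁻¹) ((d.x' ^ k)⁻¹ * d.D' * d.x' ^ k) := by
    refine Commute.mul_right (Commute.mul_right ?_ h1) ?_
    · exact ((d.xx'.pow_pow k k).inv_left).inv_right
    · exact (d.xx'.pow_pow k k).inv_left
  rw [h3.eq]
  group

theorem E_pow (k : ℕ) : Commute d.E (((d.x * d.x') ^ k : Sˣ) : S) := by
  rw [Units.val_pow_eq_pow_val]
  exact d.Exx'.pow_right k

theorem E_dd (k : ℕ) : Commute d.E (d.dd k : S) := by
  rw [dd_eq, Units.val_mul, Units.val_mul]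
  exact ((d.E_pow k).units_inv_right.mul_right d.ED).mul_right (d.E_pow k)

theorem E_dd' (k : ℕ) : Commute d.E (d.dd' k : S) := by
  rw [dd'_eq, Units.val_mul, Units.val_mul]
  exact ((d.E_pow k).units_inv_right.mul_right d.ED').mul_right (d.E_pow k)

theorem dd_E (k : ℕ) : (d.dd k : S) * d.E = (d.dd' k : S) * d.E := by
  rw [dd_eq, dd'_eq, Units.val_mul, Units.val_mul, Units.val_mul, Units.val_mul]
  rw [mul_assoc, mul_assoc, mul_assoc, mul_assoc, ← (d.E_pow k).eq, ← mul_assoc (d.D : S),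
    ← mul_assoc (d.D' : S), d.DE]

theorem dd_dd' (i k : ℕ) : Commute (d.dd i : S) (d.dd' k : S) := by
  have h : Commute (d.dd i) (d.dd' k) := by
    unfold dd dd'
    have h1 : Commute (d.x ^ i) (d.x' ^ k) := d.xx'.pow_pow i k
    have h2 : Commute (d.x ^ i) d.D' := d.xD'.pow_left i
    have h3 : Commute d.D (d.x' ^ k) := d.x'D.symm.pow_right k
    have h4 : Commute (d.x ^ i) ((d.x' ^ k)⁻¹ * d.D' * d.x' ^ k) :=
      (h1.inv_right.mul_right h2).mul_right h1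
    have h5 : Commute d.D ((d.x' ^ k)⁻¹ * d.D' * d.x' ^ k) :=
      (h3.inv_right.mul_right d.DD').mul_right h3
    exact (h4.inv_left.mul_left h5).mul_left h4
  exact Units.ext_iff.mp h.eq

/-- the key computation -/
theorem key (i k : ℕ) : (d.dd i : S) * (d.dd k : S) * d.E = (d.dd k : S) * (d.dd i : S) * d.E := by
  calc (d.dd i : S) * (d.dd k : S) * d.E = (d.dd i : S) * ((d.dd k : S) * d.E) := mul_assoc _ _ _
    _ = (d.dd i : S) * ((d.dd' k : S) * d.E) := by rw [dd_E]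
    _ = ((d.dd i : S) * (d.dd' k : S)) * d.E := (mul_assoc _ _ _).symm
    _ = ((d.dd' k : S) * (d.dd i : S)) * d.E := by rw [(d.dd_dd' i k).eq]
    _ = (d.dd' k : S) * ((d.dd i : S) * d.E) := mul_assoc _ _ _
    _ = (d.dd' k : S) * (d.E * (d.dd i : S)) := by rw [(d.E_dd i).eq]
    _ = ((d.dd' k : S) * d.E) * (d.dd i : S) := (mul_assoc _ _ _).symm
    _ = ((d.dd k : S) * d.E) * (d.dd i : S) := by rw [dd_E]
    _ = (d.dd k : S) * (d.E * (d.dd i : S)) := mul_assoc _ _ _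
    _ = (d.dd k : S) * ((d.dd i : S) * d.E) := by rw [(d.E_dd i).eq]
    _ = (d.dd k : S) * (d.dd i : S) * d.E := (mul_assoc _ _ _).symm

theorem mul_formula {u v E : S} (hE : E * E = E) (hv : Commute E v) :
    (1 - E + u * E) * (1 - E + v * E) = 1 - E + u * v * E := by
  have h1 : E * v * E = v * E := by rw [hv.eq, mul_assoc, hE]
  have h2 : (1 - E) * (v * E) = 0 := by
    rw [sub_mul, one_mul, ← mul_assoc, h1, sub_self]
  have h3 : (u * E) * (1 - E) = 0 := by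
    rw [mul_sub, mul_one, mul_assoc, hE, sub_self]
  have h4 : (1 - E) * (1 - E) = 1 - E := by
    rw [sub_mul, one_mul, mul_sub, mul_one, hE, sub_self, sub_zero]
  have h5 : (u * E) * (v * E) = u * v * E := by
    calc (u * E) * (v * E) = u * (E * v * E) := by simp only [mul_assoc]
      _ = u * v * E := by rw [h1, mul_assoc]
  rw [add_mul, mul_add, mul_add, h4, h2, h3, h5, add_zero, zero_add]

/-- The unit `τ_k = 1 - E + x⁻ᵏ D xᵏ E`. -/
def tau (k : ℕ) : Sˣ where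
  val := 1 - d.E + (d.dd k : S) * d.E
  inv := 1 - d.E + ((d.dd k)⁻¹ : Sˣ) * d.E
  val_inv := by
    rw [mul_formula d.EE (d.E_dd k).units_inv_right, Units.mul_inv, one_mul, sub_add_cancel]
  inv_val := by
    rw [mul_formula d.EE (d.E_dd k), Units.inv_mul, one_mul, sub_add_cancel]

/-- The units `τ_k` commute. -/
theorem tau_comm (i k : ℕ) : d.tau i * d.tau k = d.tau k * d.tau i := by
  apply Units.ext
  change (1 - d.E + (d.dd i : S) * d.E) * (1 - d.E + (d.dd k : S) * d.E) =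
    (1 - d.E + (d.dd k : S) * d.E) * (1 - d.E + (d.dd i : S) * d.E)
  rw [mul_formula d.EE (d.E_dd k), mul_formula d.EE (d.E_dd i), d.key]

end Dat

end Pool.Agent.Lib.MP_e7fbd4_ag.X
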